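import Pool.Agent.K3U.Up

/-!
The chains for `5 i + 2 = 4 s`: a cycle of length five, a small block, and then
one large and two small blocks repeated.
-/

open Finset

namespace Pool.Agent.TwoDens.K3F

open Pool.Agent.TwoDens Pool.Agent.TwoDens.K3U

/-- `t` times a large block and two small blocks -/
theorem walk {K : ℕ} (hK : 1 ≤ K) {θ D : ℝ} (hD : D = 14 * (K : ℝ) + 2)
    (hθ : θ = (8 * (K : ℝ) + 1) / D) : ∀ t, t ≤ K →
    PC θ (8 + 14 * t) (3 + 5 * t) ((4 * (K : ℝ) - 2 * t) / D) := by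
  have hKR : (1 : ℝ) ≤ K := by exact_mod_cast hK
  have hDpos : 0 < D := by
    rw [hD]
    linarith
  have hθD : θ * D = 8 * K + 1 := by
    rw [hθ]
    exact div_mul_cancel₀ _ hDpos.ne'
  have t1 : 1 / 2 ≤ θ := by
    rw [hθ, div_le_div_iff₀ (by norm_num) hDpos, hD]
    linarith
  have t2 : θ ≤ 4 / 7 := by
    rw [hθ, div_le_div_iff₀ hDpos (by norm_num), hD]
    linarith
  have q1 : 1 - θ = (6 * (K : ℝ) + 1) / D := by
    rw [eq_div_iff hDpos.ne', sub_mul, hθD, hD]
    ring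
  have q2 : 2 - 2 * θ = (12 * (K : ℝ) + 2) / D := by
    rw [eq_div_iff hDpos.ne', sub_mul, mul_assoc, hθD, hD]
    ring
  intro t
  induction t with
  | zero =>
    intro _
    have h := (PC.start t1).stepU t1 (by linarith) (by linarith)
    refine h.congr (by omega) (by omega) ?_
    rw [eq_div_iff hDpos.ne', sub_mul, add_mul, mul_assoc, hθD, hD]
    push_cast
    ring
  | succ t ih =>
    intro ht
    have htR : (t : ℝ) + 1 ≤ K := by exact_mod_cast ht
    have t0R : (0 : ℝ) ≤ t := Nat.cast_nonneg _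
    have h1 := ih (by omega)
    have e1 : (4 * (K : ℝ) - 2 * t) / D + 8 * θ - 4 = (12 * (K : ℝ) - 2 * t) / D := by
      rw [eq_div_iff hDpos.ne', sub_mul, add_mul, div_mul_cancel₀ _ hDpos.ne', mul_assoc, hθD, hD]
      ring
    have h2 := h1.stepH t1 t2 (by
      rw [q2]
      refine div_le_div_of_nonneg_right ?_ hDpos.le
      linarith)
    rw [e1] at h2
    have e2 : (12 * (K : ℝ) - 2 * t) / D + 3 * θ - 2 = (8 * (K : ℝ) - 1 - 2 * t) / D := by
      rw [eq_div_iff hDpos.ne', sub_mul, add_mul, div_mul_cancel₀ _ hDpos.ne', mul_assoc, hθD, hD]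
      ring
    have h3 := h2.stepU t1 (by
      rw [q1]
      refine div_le_div_of_nonneg_right ?_ hDpos.le
      linarith) (by
      rw [q2]
      refine div_le_div_of_nonneg_right ?_ hDpos.le
      linarith)
    rw [e2] at h3
    have h4 := h3.stepU t1 (by
      rw [q1]
      refine div_le_div_of_nonneg_right ?_ hDpos.le
      linarith) (by
      rw [q2]
      refine div_le_div_of_nonneg_right ?_ hDpos.le
      linarith)
    refine h4.congr (by omega) (by omega) ?_
    rw [eq_div_iff hDpos.ne', sub_mul, add_mul, div_mul_cancel₀ _ hDpos.ne', mul_assoc, hθD, hD]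
    push_cast
    ring

/-- the upper bound for `m = 2 s + i`, `5 i + 2 = 4 s` -/
theorem upperL (s i : ℕ) (h1 : 2 * s < 3 * i) (h2 : 5 * i + 2 = 4 * s) :
    minTwoDensity (2 * s + i) (s + 1) ≤
      (2 * (s : ℝ) + 3 * i - 9) / (2 * (s : ℝ) + i - 6) := by
  obtain ⟨K, hK⟩ : ∃ K, s = i + K + 1 := ⟨s - i - 1, by omega⟩
  have hi : i = 4 * K + 2 := by omega
  have hs : s = 5 * K + 3 := by omega
  have hK1 : 1 ≤ K := by omega
  have hKR : (1 : ℝ) ≤ K := by exact_mod_cast hK1
  obtain ⟨D, hD⟩ : ∃ D : ℝ, D = 14 * (K : ℝ) + 2 := ⟨_, rfl⟩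
  obtain ⟨θ, hθ⟩ : ∃ θ : ℝ, θ = (8 * (K : ℝ) + 1) / D := ⟨_, rfl⟩
  have hDpos : 0 < D := by
    rw [hD]
    linarith
  have h0 : 0 ≤ θ := by
    rw [hθ]
    exact div_nonneg (by linarith) hDpos.le
  have k8 := (walk hK1 hD hθ K le_rfl).pc
  have e2 : 2 * s + i = 8 + 14 * K := by omega
  have e3 : s + 1 = 3 + 5 * K + 1 := by omega
  have h7 := k8.min (r := s + 1) (m := 2 * s + i) (by linarith) (by omega) (by omega)
  refine h7.trans (le_of_eq ?_)
  have e4 : (2 * (s : ℝ) + i - 6) = D := by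
    rw [hD, hi, hs]
    push_cast
    ring
  rw [e4, eq_div_iff hDpos.ne', add_mul, hθ, div_mul_cancel₀ _ hDpos.ne', hD, hi, hs]
  push_cast
  ring

end Pool.Agent.TwoDens.K3F
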